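import Pool.Agent.J6H36.PF.Stm
import Pool.Agent.Y160.T2.Emb

/-!
# Module RESP: homomorphisms of finitely generated domains to prime fields
-/

set_option autoImplicit false

universe u

namespace Pool.Agent.J6H33.PF

open Pool.Agent.J6H36.PF Pool.Agent.Y160.T2

theorem exists_residue (A : Type) [CommRing A] [Algebra ℚ A] [Algebra.FiniteType ℚ A]
    [Nontrivial A] : ∃ (L : Type) (_ : Field L) (_ : NumberField L), Nonempty (A →+* L) := by
  obtain ⟨M, hM⟩ := Ideal.exists_maximal A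
  let _ : Field (A ⧸ M) := Ideal.Quotient.field M
  have hft2 : Algebra.FiniteType ℚ (A ⧸ M) :=
    Algebra.FiniteType.of_surjective (Ideal.Quotient.mkₐ ℚ M) Ideal.Quotient.mk_surjective
  have hfin : Module.Finite ℚ (A ⧸ M) := finite_of_finite_type_of_isJacobsonRing ℚ (A ⧸ M)
  have hc : CharZero (A ⧸ M) := algebraRat.charZero _
  refine ⟨A ⧸ M, inferInstance, ?_, ⟨Ideal.Quotient.mk M⟩⟩
  refine { to_charZero := hc, to_finiteDimensional := ?_ }
  convert hfin
  exact Subsingleton.elim _ _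

/-- the residue field in characteristic zero -/
theorem exists_numberField (S : Type) [CommRing S] [IsDomain S] [CharZero S]
    [Algebra.FiniteType ℤ S] (s : S) (hs : s ≠ 0) :
    ∃ (L : Type) (_ : Field L) (_ : NumberField L) (ψ : S →+* L), ψ s ≠ 0 := by
  classical
  have hK : CharZero (FractionRing S) :=
    charZero_of_injective_ringHom (IsFractionRing.injective S (FractionRing S))
  obtain ⟨G, hG⟩ := Algebra.FiniteType.out (R := ℤ) (A := S)
  obtain ⟨T, hT⟩ : ∃ T : Finset (FractionRing S),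
    T = insert (algebraMap S (FractionRing S) s)⁻¹ (G.image (algebraMap S (FractionRing S))) :=
    ⟨_, rfl⟩
  obtain ⟨A, hAT⟩ : ∃ A : Subalgebra ℚ (FractionRing S),
    A = Algebra.adjoin ℚ (T : Set (FractionRing S)) := ⟨_, rfl⟩
  have hA : ∀ x : S, algebraMap S (FractionRing S) x ∈ A := by
    intro x
    have hx : x ∈ Algebra.adjoin ℤ (G : Set S) := by
      rw [hG]
      trivial
    induction hx using Algebra.adjoin_induction with
    | mem x hx =>
      rw [hAT]
      apply Algebra.subset_adjoin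
      rw [hT, Finset.mem_coe, Finset.mem_insert]
      exact Or.inr (Finset.mem_image.2 ⟨x, hx, rfl⟩)
    | algebraMap r =>
      have h1 : algebraMap S (FractionRing S) (algebraMap ℤ S r) = (r : FractionRing S) := by
        simp
      rw [h1]
      exact intCast_mem A r
    | add x y _ _ h1 h2 =>
      rw [map_add]
      exact A.add_mem h1 h2
    | mul x y _ _ h1 h2 =>
      rw [map_mul]
      exact A.mul_mem h1 h2
  obtain ⟨f, hf⟩ : ∃ f : S →+* A, ∀ x, ((f x : A) : FractionRing S) =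
      algebraMap S (FractionRing S) x :=
    ⟨(algebraMap S (FractionRing S)).codRestrict A hA, fun x => rfl⟩
  have hs' : algebraMap S (FractionRing S) s ≠ 0 := by
    intro h
    exact hs ((IsFractionRing.injective S (FractionRing S)) (by rw [h, map_zero]))
  have hinv : (algebraMap S (FractionRing S) s)⁻¹ ∈ A := by
    rw [hAT]
    apply Algebra.subset_adjoin
    rw [hT, Finset.mem_coe, Finset.mem_insert]
    exact Or.inl rfl
  have hunit : IsUnit (f s) := by
    refine IsUnit.of_mul_eq_one ⟨_, hinv⟩ ?_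
    apply Subtype.ext
    show ((f s : A) : FractionRing S) * (algebraMap S (FractionRing S) s)⁻¹ = 1
    rw [hf]
    exact mul_inv_cancel₀ hs'
  have hfg : A.FG := ⟨T, hAT.symm⟩
  have hft : Algebra.FiniteType ℚ A := A.fg_iff_finiteType.1 hfg
  obtain ⟨L, i1, i2, ⟨g⟩⟩ := exists_residue A
  exact ⟨L, i1, i2, g.comp f, (hunit.map g).ne_zero⟩

theorem resp0 (S : Type) [CommRing S] [IsDomain S] [CharZero S] [Algebra.FiniteType ℤ S]
    (s : S) (hs : s ≠ 0) (N : ℕ) :
    ∃ p : ℕ, N < p ∧ p.Prime ∧ ∃ φ : S →+* ZMod p, φ s ≠ 0 := by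
  classical
  obtain ⟨L, _, _, ψ, hψ⟩ := exists_numberField S s hs
  obtain ⟨G, hG⟩ := Algebra.FiniteType.out (R := ℤ) (A := S)
  obtain ⟨D, hD0, hD⟩ := exists_integral_multiples ℤ ℚ (L := L) (insert (ψ s)⁻¹ (G.image ψ))
  obtain ⟨p, hp, hpB, ⟨σ⟩⟩ := embed_ex L (max N D.natAbs)
  have hDn : ‖(D : ℚ_[p])‖ = 1 := by
    refine le_antisymm (Padic.norm_int_le_one D) (not_lt.1 fun h => ?_)
    have h1 := (Padic.norm_intCast_lt_one_iff).1 h
    have h2 := Int.le_of_dvd (abs_pos.2 hD0) ((dvd_abs _ _).2 h1)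
    rw [Int.abs_eq_natAbs] at h2
    have h3 := le_max_right N D.natAbs
    omega
  have hle : ∀ x : L, IsIntegral ℤ (D • x) → ‖σ x‖ ≤ 1 := by
    intro x hx
    have h1 : IsIntegral ℤ (σ (D • x)) := map_isIntegral_int σ hx
    have h2 : ‖σ (D • x)‖ ≤ 1 := by
      have h3 : IsIntegral ℤ_[p] (σ (D • x)) := h1.tower_top
      obtain ⟨y, hy⟩ := IsIntegrallyClosed.isIntegral_iff.1 h3
      rw [← hy]
      exact PadicInt.norm_le_one y
    rw [zsmul_eq_mul, map_mul, map_intCast, norm_mul, hDn, one_mul] at h2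
    exact h2
  have hS : ∀ x : S, ‖σ (ψ x)‖ ≤ 1 := by
    intro x
    have hx : x ∈ Algebra.adjoin ℤ (G : Set S) := by
      rw [hG]
      trivial
    induction hx using Algebra.adjoin_induction with
    | mem x hx =>
      apply hle
      apply hD
      exact Finset.mem_insert.2 (Or.inr (Finset.mem_image.2 ⟨x, hx, rfl⟩))
    | algebraMap r =>
      have h1 : σ (ψ (algebraMap ℤ S r)) = (r : ℚ_[p]) := by simp
      rw [h1]
      exact Padic.norm_int_le_one r
    | add x y _ _ h1 h2 =>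
      rw [map_add, map_add]
      exact (Padic.nonarchimedean _ _).trans (max_le h1 h2)
    | mul x y _ _ h1 h2 =>
      rw [map_mul, map_mul, norm_mul]
      exact mul_le_one₀ h1 (norm_nonneg _) h2
  obtain ⟨τ, hτ⟩ : ∃ τ : S →+* ℤ_[p], ∀ x, ((τ x : ℤ_[p]) : ℚ_[p]) = σ (ψ x) :=
    ⟨(σ.comp ψ).codRestrict (PadicInt.subring p) hS, fun x => rfl⟩
  have hlt : max N D.natAbs < p := hpB
  refine ⟨p, lt_of_le_of_lt (le_max_left _ _) hlt, hp.out, (PadicInt.toZMod).comp τ, ?_⟩
  have h1 : ‖σ (ψ s)‖ = 1 := by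
    refine le_antisymm (hS s) ?_
    have h2 : ‖σ (ψ s)⁻¹‖ ≤ 1 := hle _ (hD _ (Finset.mem_insert_self _ _))
    rw [map_inv₀, norm_inv] at h2
    have h3 : 0 < ‖σ (ψ s)‖ := norm_pos_iff.2 ((map_ne_zero σ).2 hψ)
    exact (inv_le_one₀ h3).1 h2
  have h2 : IsUnit (τ s) := by
    rw [PadicInt.isUnit_iff, PadicInt.norm_def, hτ]
    exact h1
  exact (h2.map PadicInt.toZMod).ne_zero

theorem transfer (S : Type u) [CommRing S] [IsDomain S] [CharZero S] [Algebra.FiniteType ℤ S]
    (Q : Type) [CommRing Q] (e : Q ≃+* S) (s : S) (hs : s ≠ 0) (N : ℕ) :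
    ∃ p : ℕ, N < p ∧ p.Prime ∧ ∃ φ : S →+* ZMod p, φ s ≠ 0 := by
  have h1 : IsDomain Q := e.toMulEquiv.isDomain S
  have h2 : CharZero Q :=
    charZero_of_injective_ringHom (f := (e.symm : S →+* Q)) e.symm.injective
  have h3 : Algebra.FiniteType ℤ Q :=
    Algebra.FiniteType.of_surjective (e.symm : S →+* Q).toIntAlgHom e.symm.surjective
  have h4 : e.symm s ≠ 0 := fun h => hs (by
    have h5 := congrArg e h
    rwa [RingEquiv.apply_symm_apply, map_zero] at h5)
  obtain ⟨p, hp1, hp2, φ, hφ⟩ := resp0 Q (e.symm s) h4 N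
  exact ⟨p, hp1, hp2, φ.comp (e.symm : S →+* Q), hφ⟩

theorem t_RESP : S_RESP.{u} := by
  intro S _ _ _ _ s hs N
  obtain ⟨n, f, hf⟩ := Algebra.FiniteType.iff_quotient_mvPolynomial''.1
    (inferInstance : Algebra.FiniteType ℤ S)
  obtain ⟨e⟩ : Nonempty
      ((MvPolynomial (Fin n) ℤ ⧸ RingHom.ker (f : MvPolynomial (Fin n) ℤ →+* S)) ≃+* S) :=
    ⟨RingHom.quotientKerEquivOfSurjective hf⟩
  exact transfer S _ e s hs N

end Pool.Agent.J6H33.PF
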